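import Pool.Agent.Q314.Hz.Count
import Pool.Agent.Q314.Hz.Cut

/-!
# MP_7acacd_co: `a_k = b_{k+1}` for every `k ≥ 3`

The number of Wilf-equivalence classes of Hertzsprung patterns of length `k` is the number of
sets of lengths of palindromic prefixes of binary palindromes of length `k + 1`.
-/

namespace Pool.Agent.Results.MP_7acacd_co.WilfClasses

open Pool.Agent.Q314.Hz

/-- `σ` occurs in `π` as a Hertzsprung pattern: at the `k` adjacent positions `i, …, i + k - 1`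
(counted from `0`) the values of `π` are those of `σ` shifted by the integer `d`. -/
def Occurs {k n : ℕ} (σ : Equiv.Perm (Fin k)) (π : Equiv.Perm (Fin n)) : Prop :=
  ∃ (i : ℕ) (d : ℤ), i + k ≤ n ∧
    ∀ (j : Fin k) (p : Fin n), (p : ℕ) = i + j → ((π p : ℕ) : ℤ) = (σ j : ℕ) + d

/-- the number `|S_n(σ)|` of permutations of length `n` which avoid `σ` -/
noncomputable def avoidCount {k : ℕ} (n : ℕ) (σ : Equiv.Perm (Fin k)) : ℕ :=
  Nat.card {π : Equiv.Perm (Fin n) // ¬ Occurs σ π}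

/-- Wilf-equivalence of patterns of length `k` -/
def wilfSetoid (k : ℕ) : Setoid (Equiv.Perm (Fin k)) where
  r σ τ := ∀ n : ℕ, avoidCount n σ = avoidCount n τ
  iseqv := ⟨fun _ _ => rfl, fun h n => (h n).symm, fun h h' n => (h n).trans (h' n)⟩

/-- the number `a_k` of Wilf-equivalence classes of `S_k` -/
noncomputable def a (k : ℕ) : ℕ := Nat.card (Quotient (wilfSetoid k))

/-- `w` is a palindrome -/
def IsPal {n : ℕ} (w : Fin n → Bool) : Prop := ∀ i j : Fin n, (i : ℕ) + j + 1 = n → w i = w j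

/-- the set `P(w)` of the lengths `i` of the palindromic prefixes of `w`, `1 ≤ i ≤ n` -/
def palPrefixes {n : ℕ} (w : Fin n → Bool) : Set ℕ :=
  {i | 1 ≤ i ∧ i ≤ n ∧ ∀ p q : Fin n, (p : ℕ) + q + 1 = i → w p = w q}

/-- the number `b_n` of distinct sets `P(w)`, where `w` ranges over the binary palindromes of
length `n` -/
noncomputable def b (n : ℕ) : ℕ :=
  Nat.card {S : Set ℕ // ∃ w : Fin n → Bool, IsPal w ∧ palPrefixes w = S}

/-! ## Occurrences -/

theorem occurs_iff {k n : ℕ} (hk : 1 ≤ k) (σ : Equiv.Perm (Fin k)) (π : Equiv.Perm (Fin n)) :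
    Occurs σ π ↔ ∃ β, AtB k n (fn σ) (fn π) β := by
  constructor
  · rintro ⟨i, d, hi, h⟩
    obtain ⟨j₀, hj₀, e₀⟩ := (fn_isP σ).surj 0 (by omega)
    obtain ⟨j₁, hj₁, e₁⟩ := (fn_isP σ).surj (k - 1) (by omega)
    have h' : ∀ j, j < k → (fn π (i + j) : ℤ) = fn σ j + d := by
      intro j hj
      have := h ⟨j, hj⟩ ⟨i + j, by omega⟩ rfl
      rw [fn, dif_pos (by omega), fn, dif_pos hj]
      exact this
    have a0 := h' j₀ hj₀
    have a1 := h' j₁ hj₁
    rw [e₀] at a0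
    rw [e₁] at a1
    have hb := (fn_isP π).1 (i + j₁) (by omega)
    have hd : d = (fn π (i + j₀) : ℕ) := by rw [a0]; simp
    refine ⟨(i, fn π (i + j₀)), hi, ?_, ?_⟩
    · simp only
      omega
    · intro j hj
      have := h' j hj
      rw [hd] at this
      exact_mod_cast this
  · rintro ⟨⟨i, b⟩, h1, h2, h3⟩
    refine ⟨i, b, h1, ?_⟩
    intro j p hp
    have := h3 j j.2
    simp only at this
    rw [← hp, fn_val, fn_val] at this
    rw [this]
    push_cast
    ring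

theorem avoidCount_eq {k : ℕ} (hk : 1 ≤ k) (n : ℕ) (σ : Equiv.Perm (Fin k)) :
    avoidCount n σ = Av k n (fn σ) := by
  classical
  unfold avoidCount Av
  rw [Nat.card_eq_fintype_card, Fintype.card_subtype]
  congr 1
  ext π
  simp only [Finset.mem_filter, Finset.mem_univ, true_and]
  rw [occurs_iff hk]
  push Not
  rfl

/-! ## Reversal -/

/-- the reversed permutation -/
def rv {n : ℕ} (σ : Equiv.Perm (Fin n)) : Equiv.Perm (Fin n) := Fin.revPerm.trans σ

theorem rv_apply {n : ℕ} (σ : Equiv.Perm (Fin n)) (j : Fin n) : rv σ j = σ j.rev := rfl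

theorem rv_rv {n : ℕ} (σ : Equiv.Perm (Fin n)) : rv (rv σ) = σ := by
  ext j
  simp [rv_apply]

theorem occurs_rv {k n : ℕ} {σ : Equiv.Perm (Fin k)} {π : Equiv.Perm (Fin n)} (h : Occurs σ π) :
    Occurs (rv σ) (rv π) := by
  obtain ⟨i, d, h1, h2⟩ := h
  refine ⟨n - k - i, d, by omega, ?_⟩
  intro j p hp
  rw [rv_apply, rv_apply]
  apply h2
  rw [Fin.val_rev, Fin.val_rev]
  omega

theorem occurs_rv_iff {k n : ℕ} (σ : Equiv.Perm (Fin k)) (π : Equiv.Perm (Fin n)) :
    Occurs (rv σ) (rv π) ↔ Occurs σ π := by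
  constructor
  · intro h
    have := occurs_rv h
    rwa [rv_rv, rv_rv] at this
  · exact occurs_rv

theorem avoidCount_rv {k : ℕ} (n : ℕ) (σ : Equiv.Perm (Fin k)) :
    avoidCount n (rv σ) = avoidCount n σ := by
  unfold avoidCount
  refine (Nat.card_congr ?_).symm
  refine ⟨fun π => ⟨rv π.1, fun h => π.2 ((occurs_rv_iff σ π.1).1 h)⟩,
    fun π => ⟨rv π.1, fun h => π.2 ?_⟩, fun π => Subtype.ext (rv_rv _),
    fun π => Subtype.ext (rv_rv _)⟩
  have := occurs_rv h
  rwa [rv_rv] at this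

theorem fn_rv {k : ℕ} (σ : Equiv.Perm (Fin k)) {j : ℕ} (hj : j < k) :
    fn (rv σ) j = fn σ (k - 1 - j) := by
  rw [fn, dif_pos hj, fn, dif_pos (by omega), rv_apply]
  congr 2
  apply Fin.ext
  rw [Fin.val_rev]
  show k - (j + 1) = k - 1 - j
  omega

theorem up_rv {k : ℕ} (σ : Equiv.Perm (Fin k)) (t : ℕ) : Up (fn (rv σ)) k t ↔ Dn (fn σ) k t := by
  constructor
  · intro h j hj
    have := h (k - 1 - (j + t)) (by omega)
    rw [fn_rv σ (by omega), fn_rv σ (by omega)] at this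
    rw [show k - 1 - (k - 1 - (j + t) + t) = j by omega,
      show k - 1 - (k - 1 - (j + t)) = j + t by omega] at this
    exact this.symm
  · intro h j hj
    have := h (k - 1 - (j + t)) (by omega)
    rw [fn_rv σ (by omega), fn_rv σ (by omega)]
    rw [show k - 1 - (j + t) + t = k - 1 - j by omega] at this
    exact this.symm

theorem dn_rv {k : ℕ} (σ : Equiv.Perm (Fin k)) (t : ℕ) : Dn (fn (rv σ)) k t ↔ Up (fn σ) k t := by
  rw [← up_rv (rv σ), rv_rv]

/-! ## The set of shifts -/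

/-- the set of shifts of `σ` -/
def ovl {k : ℕ} (σ : Equiv.Perm (Fin k)) : Set ℕ :=
  {t | 1 ≤ t ∧ t < k ∧ (Up (fn σ) k t ∨ Dn (fn σ) k t)}

theorem representative {k : ℕ} (hk : 1 ≤ k) (σ : Equiv.Perm (Fin k)) :
    ∃ s : ℕ → ℕ, IsP k s ∧ (∀ t, 1 ≤ t → t < k → ¬ Dn s k t) ∧ (∀ n, avoidCount n σ = Av k n s) ∧
      ∀ t, 1 ≤ t → t < k → (Up s k t ↔ t ∈ ovl σ) := by
  by_cases h : ∃ t, 1 ≤ t ∧ t < k ∧ Dn (fn σ) k t
  · obtain ⟨u, hu1, huk, hu⟩ := h
    have hno : ∀ t, 1 ≤ t → t < k → ¬ Up (fn σ) k t := fun t h1 h2 h3 =>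
      not_both (fn_isP σ) h1 h2 hu1 huk h3 hu
    refine ⟨fn (rv σ), fn_isP _, fun t h1 h2 h3 => hno t h1 h2 ((dn_rv σ t).1 h3), fun n => ?_,
      fun t h1 h2 => ?_⟩
    · rw [← avoidCount_eq hk, avoidCount_rv]
    · rw [up_rv]
      exact ⟨fun h3 => ⟨h1, h2, Or.inr h3⟩, fun h3 => h3.2.2.resolve_left (hno t h1 h2)⟩
  · push Not at h
    refine ⟨fn σ, fn_isP _, h, fun n => avoidCount_eq hk n σ, fun t h1 h2 => ?_⟩
    exact ⟨fun h3 => ⟨h1, h2, Or.inl h3⟩, fun h3 => h3.2.2.resolve_right (h t h1 h2)⟩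

theorem wilf_iff {k : ℕ} (hk : 1 ≤ k) (σ τ : Equiv.Perm (Fin k)) :
    (∀ n : ℕ, avoidCount n σ = avoidCount n τ) ↔ ovl σ = ovl τ := by
  classical
  obtain ⟨s, hs1, hs2, hs3, hs4⟩ := representative hk σ
  obtain ⟨t, ht1, ht2, ht3, ht4⟩ := representative hk τ
  constructor
  · intro h
    by_contra hne
    have hex : ∃ u, ¬ (u ∈ ovl σ ↔ u ∈ ovl τ) := by
      by_contra hcon
      push Not at hcon
      exact hne (Set.ext fun u => hcon u)
    have hsp := Nat.find_spec hex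
    set u := Nat.find hex with hu
    have hmin : ∀ v, v < u → (v ∈ ovl σ ↔ v ∈ ovl τ) := fun v hv => by
      have := Nat.find_min hex hv
      push Not at this
      exact this
    by_cases h1 : u ∈ ovl σ
    · have h2 : u ∉ ovl τ := fun h2 => hsp ⟨fun _ => h2, fun _ => h1⟩
      have b1 := h1.1
      have b2 := h1.2.1
      refine Av_ne_of hs1 ht1 hs2 ht2 b1 b2 (fun v hv1 hv2 => ?_) ((hs4 u b1 b2).2 h1)
        (fun h3 => h2 ((ht4 u b1 b2).1 h3)) ?_
      · rw [hs4 v hv1 (by omega), ht4 v hv1 (by omega)]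
        exact hmin v hv2
      · rw [← hs3, ← ht3, h]
    · have h2 : u ∈ ovl τ := by
        by_contra h2
        exact hsp (iff_of_false h1 h2)
      have b1 := h2.1
      have b2 := h2.2.1
      refine Av_ne_of ht1 hs1 ht2 hs2 b1 b2 (fun v hv1 hv2 => ?_) ((ht4 u b1 b2).2 h2)
        (fun h3 => h1 ((hs4 u b1 b2).1 h3)) ?_
      · rw [hs4 v hv1 (by omega), ht4 v hv1 (by omega)]
        exact (hmin v hv2).symm
      · rw [← hs3, ← ht3, h]
  · intro h n
    rw [hs3, ht3]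
    refine Av_eq_of hk hs1 ht1 hs2 ht2 (fun u h1 h2 => ?_) n
    rw [hs4 u h1 h2, ht4 u h1 h2, h]

/-! ## Palindromes -/

/-- the set of palindromic prefixes belonging to a set of shifts -/
def F (k : ℕ) (U : Set ℕ) : Set ℕ :=
  {i | 1 ≤ i ∧ i ≤ k + 1 ∧ (i = k + 1 ∨ i = 1 ∨ k + 1 - i ∈ U)}

theorem F_inj {k : ℕ} {U V : Set ℕ} (hU : ∀ t ∈ U, 1 ≤ t ∧ t < k) (hV : ∀ t ∈ V, 1 ≤ t ∧ t < k)
    (h : F k U = F k V) : U = V := by
  have main : ∀ U V : Set ℕ, (∀ t ∈ U, 1 ≤ t ∧ t < k) → F k U = F k V → U ⊆ V := by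
    intro U V hU h t ht
    have hb := hU t ht
    have : k + 1 - t ∈ F k U := ⟨by omega, by omega, Or.inr (Or.inr (by
      rw [show k + 1 - (k + 1 - t) = t by omega]; exact ht))⟩
    rw [h] at this
    rcases this.2.2 with h1 | h1 | h1
    · omega
    · omega
    · rwa [show k + 1 - (k + 1 - t) = t by omega] at h1
  exact Set.Subset.antisymm (main U V hU h) (main V U hV h.symm)

/-- extension of a word to `ℕ` -/
def ex {n : ℕ} (w : Fin n → Bool) (j : ℕ) : Bool := if h : j < n then w ⟨j, h⟩ else false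

theorem ex_pal {n : ℕ} {w : Fin n → Bool} (h : IsPal w) : PalW (ex w) n := by
  intro j hj
  rw [ex, dif_pos hj, ex, dif_pos (by omega)]
  exact h _ _ (by simp only; omega)

theorem mem_palPrefixes {k : ℕ} {w : Fin (k + 1) → Bool} (h : IsPal w) (i : ℕ) :
    i ∈ palPrefixes w ↔ 1 ≤ i ∧ i ≤ k + 1 ∧ Per (ex w) (k + 1) (k + 1 - i) := by
  have hp := ex_pal h
  constructor
  · rintro ⟨h1, h2, h3⟩
    refine ⟨h1, h2, ?_⟩
    intro j hj
    have e1 : ex w j = ex w (i - 1 - j) := by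
      rw [ex, dif_pos (by omega), ex, dif_pos (by omega)]
      exact h3 _ _ (by simp only; omega)
    rw [e1, hp (i - 1 - j) (by omega)]
    congr 1
    omega
  · rintro ⟨h1, h2, h3⟩
    refine ⟨h1, h2, ?_⟩
    intro p q hpq
    have e1 := h3 p (by omega)
    have e2 := hp (p + (k + 1 - i)) (by omega)
    rw [show k + 1 - 1 - ((p : ℕ) + (k + 1 - i)) = q by omega] at e2
    rw [← e1] at e2
    rw [ex, dif_pos p.2, ex, dif_pos q.2] at e2
    exact e2

theorem palPrefixes_eq {k : ℕ} {w : Fin (k + 1) → Bool} (h : IsPal w) :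
    palPrefixes w = F k {t | 1 ≤ t ∧ t < k ∧ Per (ex w) (k + 1) t} := by
  have hp := ex_pal h
  ext i
  rw [mem_palPrefixes h]
  constructor
  · rintro ⟨h1, h2, h3⟩
    refine ⟨h1, h2, ?_⟩
    by_cases c1 : i = k + 1
    · exact Or.inl c1
    · by_cases c2 : i = 1
      · exact Or.inr (Or.inl c2)
      · exact Or.inr (Or.inr ⟨by omega, by omega, h3⟩)
  · rintro ⟨h1, h2, h3⟩
    refine ⟨h1, h2, ?_⟩
    rcases h3 with h3 | h3 | h3
    · rw [h3]
      intro j hj
      congr 1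
      omega
    · intro j hj
      have hj0 : j = 0 := by omega
      subst hj0
      rw [hp 0 (by omega)]
      congr 1
      omega
    · exact h3.2.2

theorem per_congr {α : Type*} {v w : ℕ → α} {n : ℕ} (h : ∀ j, j < n → v j = w j) (t : ℕ) :
    Per v n t ↔ Per w n t := by
  constructor
  · intro hp j hj
    rw [← h j (by omega), ← h (j + t) hj]
    exact hp j hj
  · intro hp j hj
    rw [h j (by omega), h (j + t) hj]
    exact hp j hj

theorem up_congr {s t : ℕ → ℕ} {k : ℕ} (h : ∀ j, j < k → s j = t j) (u : ℕ) :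
    Up s k u ↔ Up t k u := by
  constructor
  · intro hp j hj
    rw [← h j (by omega), ← h (j + u) hj]
    exact hp j hj
  · intro hp j hj
    rw [h j (by omega), h (j + u) hj]
    exact hp j hj

theorem dn_congr {s t : ℕ → ℕ} {k : ℕ} (h : ∀ j, j < k → s j = t j) (u : ℕ) :
    Dn s k u ↔ Dn t k u := by
  constructor
  · intro hp j hj
    rw [← h j (by omega), ← h (j + u) hj]
    exact hp j hj
  · intro hp j hj
    rw [h j (by omega), h (j + u) hj]
    exact hp j hj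

theorem sets_eq {k : ℕ} (hk : 3 ≤ k) :
    {S : Set ℕ | ∃ w : Fin (k + 1) → Bool, IsPal w ∧ palPrefixes w = S}
      = F k '' (Set.range (ovl : Equiv.Perm (Fin k) → Set ℕ)) := by
  ext S
  constructor
  · rintro ⟨w, hw, rfl⟩
    obtain ⟨s, hs1, hs2, hs3⟩ := exists_perm hk (ex_pal hw)
    refine ⟨_, ⟨mkP s hs1, rfl⟩, ?_⟩
    rw [palPrefixes_eq hw]
    congr 1
    ext t
    have hfs : ∀ j, j < k → fn (mkP s hs1) j = s j := fun j hj => fn_mkP hs1 hj
    constructor
    · rintro ⟨h1, h2, h3⟩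
      refine ⟨h1, h2, (hs3 t h1 h2).1 ?_⟩
      rcases h3 with h3 | h3
      · exact (up_congr hfs t).1 h3
      · exact absurd ((dn_congr hfs t).1 h3) (hs2 t h1 h2)
    · rintro ⟨h1, h2, h3⟩
      exact ⟨h1, h2, Or.inl ((up_congr hfs t).2 ((hs3 t h1 h2).2 h3))⟩
  · rintro ⟨U, ⟨σ, rfl⟩, rfl⟩
    obtain ⟨s, hs1, _, _, hs4⟩ := representative (by omega) σ
    obtain ⟨W, hW1, hW2⟩ := exists_word hs1
    have hex : ∀ j, j < k + 1 → ex (fun i : Fin (k + 1) => W i) j = W j := by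
      intro j hj
      rw [ex, dif_pos hj]
    have hpal : IsPal (fun i : Fin (k + 1) => W i) := by
      intro i j hij
      simp only
      rw [hW1 i i.2]
      congr 1
      omega
    refine ⟨fun i => W i, hpal, ?_⟩
    rw [palPrefixes_eq hpal]
    congr 1
    ext t
    constructor
    · rintro ⟨h1, h2, h3⟩
      exact (hs4 t h1 h2).1 ((hW2 t h1 h2).2 ((per_congr hex t).1 h3))
    · intro h
      have h1 := h.1
      have h2 := h.2.1
      exact ⟨h1, h2, (per_congr hex t).2 ((hW2 t h1 h2).1 ((hs4 t h1 h2).2 h))⟩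

/-- **Theorem.** `a_k = b_{k+1}` for every `k ≥ 3`. -/
theorem result : ∀ k : ℕ, 3 ≤ k → a k = b (k + 1) := by
  intro k hk
  have hsetoid : wilfSetoid k = Setoid.ker (ovl : Equiv.Perm (Fin k) → Set ℕ) := by
    ext σ τ
    rw [Setoid.ker_def]
    exact wilf_iff (by omega) σ τ
  have e1 : a k = Nat.card (Set.range (ovl : Equiv.Perm (Fin k) → Set ℕ)) := by
    unfold a
    rw [hsetoid]
    exact Nat.card_congr (Setoid.quotientKerEquivRange _)
  have e2 : b (k + 1) = Nat.card (F k '' (Set.range (ovl : Equiv.Perm (Fin k) → Set ℕ))) := by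
    unfold b
    rw [← sets_eq hk]
    rfl
  rw [e1, e2]
  refine (Nat.card_image_of_injOn ?_).symm
  rintro _ ⟨σ, rfl⟩ _ ⟨τ, rfl⟩ h
  exact F_inj (fun t ht => ⟨ht.1, ht.2.1⟩) (fun t ht => ⟨ht.1, ht.2.1⟩) h

end Pool.Agent.Results.MP_7acacd_co.WilfClasses
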